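import Pool.Graph.R_pool_sql_team_f40e85b7.H5Deg.Mom

set_option autoImplicit false

namespace Pool.Agent.Results.MP_bd7745_co.LawOfLargeNumbers

open Finset Filter Topology
open Pool.Agent.H5Deg (UU AA Ev ev_iff w w_pos w_succ w_mono w_low single_count pair_bound)

/-- The `r`-uniform hypergraphs on the vertex set `Fin n` (sets of `r`-element subsets). -/
def hyps (n r : ℕ) : Finset (Finset (Finset (Fin n))) :=
  ((univ : Finset (Fin n)).powersetCard r).powerset

/-- The degree of the vertex `v` in the hypergraph `H`. -/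
def deg {n : ℕ} (H : Finset (Finset (Fin n))) (v : Fin n) : ℕ := (H.filter (fun e => v ∈ e)).card

/-- The number of (unordered) pairs of distinct vertices with equal degree. -/
def eqPairs {n : ℕ} (H : Finset (Finset (Fin n))) : ℕ :=
  ((univ : Finset (Fin n × Fin n)).filter (fun p => p.1 < p.2 ∧ deg H p.1 = deg H p.2)).card

open Classical in
/-- The probability that a uniformly random `r`-uniform hypergraph on `Fin n` has property `P`. -/
noncomputable def Pr (n r : ℕ) (P : Finset (Finset (Fin n)) → Prop) : ℝ :=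
  (((hyps n r).filter P).card : ℝ) / ((hyps n r).card : ℝ)

/-- The exact mean of `eqPairs` (see `result`). -/
noncomputable def mean (n r : ℕ) : ℝ :=
  (n * (n - 1) / 2 : ℝ) * (((2 * (n - 2).choose (r - 1)).choose ((n - 2).choose (r - 1)) : ℝ)
    / 4 ^ ((n - 2).choose (r - 1)))

/-- ordered count -/
noncomputable def X (n k : ℕ) (H : Finset (Finset (Fin n))) : ℝ :=
  ∑ p ∈ (univ : Finset (Fin n)).offDiag, if Ev n k p.1 p.2 H then 1 else 0

theorem mean_eq (n r : ℕ) : 2 * mean n r = (n * (n - 1) : ℝ) * w ((n - 2).choose (r - 1)) := by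
  unfold mean w
  ring

theorem X_eq (n k : ℕ) (H : Finset (Finset (Fin n))) (hH : H ⊆ UU n k) :
    X n k H = 2 * (eqPairs H : ℝ) := by
  have h1 : X n k H = (((univ : Finset (Fin n)).offDiag.filter
      (fun p => deg H p.1 = deg H p.2)).card : ℝ) := by
    unfold X
    rw [Finset.card_filter]
    push_cast
    refine Finset.sum_congr rfl fun p _ => ?_
    have := ev_iff n k p.1 p.2 H hH
    by_cases h : deg H p.1 = deg H p.2
    · rw [if_pos h, if_pos (this.mpr h)]
    · rw [if_neg h, if_neg (fun h' => h (this.mp h'))]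
  rw [h1]
  have h2 : (univ : Finset (Fin n)).offDiag.filter (fun p => deg H p.1 = deg H p.2) =
      ((univ : Finset (Fin n × Fin n)).filter (fun p => p.1 < p.2 ∧ deg H p.1 = deg H p.2)) ∪
      ((univ : Finset (Fin n × Fin n)).filter (fun p => p.2 < p.1 ∧ deg H p.2 = deg H p.1)) := by
    ext p
    simp only [mem_filter, mem_offDiag, mem_union, mem_univ, true_and]
    constructor
    · rintro ⟨h, h'⟩
      rcases lt_or_gt_of_ne h with hl | hl
      · exact Or.inl ⟨hl, h'⟩
      · exact Or.inr ⟨hl, h'.symm⟩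
    · rintro (⟨h, h'⟩ | ⟨h, h'⟩)
      · exact ⟨h.ne, h'⟩
      · exact ⟨h.ne', h'.symm⟩
  have h3 : ((univ : Finset (Fin n × Fin n)).filter
      (fun p => p.2 < p.1 ∧ deg H p.2 = deg H p.1)).card = eqPairs H := by
    unfold eqPairs
    refine Finset.card_nbij' Prod.swap Prod.swap ?_ ?_ ?_ ?_
    · intro p hp; simpa using hp
    · intro p hp; simpa using hp
    · intro p _; simp
    · intro p _; simp
  rw [h2, card_union_of_disjoint, h3]
  · unfold eqPairs
    push_cast
    ring
  · rw [Finset.disjoint_left]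
    intro p hp hp'
    simp only [mem_filter, mem_univ, true_and] at hp hp'
    exact absurd hp.1 (not_lt.mpr hp'.1.le)

theorem sum_X (n k : ℕ) (_hn : 1 ≤ n) (hk : 2 ≤ k) : ∑ H ∈ (UU n k).powerset, X n k H =
    (n * (n - 1) : ℝ) * w ((n - 2).choose (k - 1)) * 2 ^ (UU n k).card := by
  have hPsc : (((univ : Finset (Fin n)).offDiag.card : ℕ) : ℝ) = (n * (n - 1) : ℝ) := by
    rw [offDiag_card, card_univ, Fintype.card_fin, Nat.cast_sub (Nat.le_mul_self n)]
    push_cast; ring
  unfold X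
  rw [Finset.sum_comm]
  have : ∀ p ∈ (univ : Finset (Fin n)).offDiag, ∑ H ∈ (UU n k).powerset,
      (if Ev n k p.1 p.2 H then (1 : ℝ) else 0) =
      w ((n - 2).choose (k - 1)) * 2 ^ (UU n k).card := by
    intro p hp
    rw [mem_offDiag] at hp
    rw [← single_count n k hk p.1 p.2 hp.2.2, Finset.card_filter]
    push_cast
    rfl
  rw [Finset.sum_congr rfl this, Finset.sum_const, nsmul_eq_mul, hPsc]
  ring

open Classical in
/-- variance bound -/
theorem var_bound (n k : ℕ) (hn : 1 ≤ n) (hk : 2 ≤ k) (g h : ℕ)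
    (hg : 2 * g ≤ (n - 2).choose (k - 1) - 2 * (n - 2).choose (k - 2))
    (hh : h = (n - 2).choose (k - 1) - 2 * (n - 2).choose (k - 2)) :
    ∑ H ∈ (UU n k).powerset, (X n k H - (n * (n - 1) : ℝ) * w ((n - 2).choose (k - 1))) ^ 2 ≤
      2 ^ (UU n k).card * ((n * (n - 1) : ℝ) * (2 * w ((n - 2).choose (k - 1)) + 4 * n * w g ^ 2 +
        (n * (n - 1) : ℝ) * w h ^ 2) - ((n * (n - 1) : ℝ) * w ((n - 2).choose (k - 1))) ^ 2) := by
  have hS1 := sum_X n k hn hk
  set W := w ((n - 2).choose (k - 1)) with hW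
  set Ω := (UU n k).powerset with hΩ
  set Ps := (univ : Finset (Fin n)).offDiag with hPs
  set T : ℝ := (n * (n - 1) : ℝ) with hT
  have hPsc : (Ps.card : ℝ) = T := by
    rw [hPs, offDiag_card, card_univ, Fintype.card_fin, hT, Nat.cast_sub (Nat.le_mul_self n)]
    push_cast; ring
  have hS2 : ∑ H ∈ Ω, X n k H ^ 2 ≤
      T * (2 * W + 4 * n * w g ^ 2 + T * w h ^ 2) * 2 ^ (UU n k).card := by
    have e1 : ∑ H ∈ Ω, X n k H ^ 2 = ∑ p ∈ Ps, ∑ q ∈ Ps,
        ((Ω.filter (fun H => Ev n k p.1 p.2 H ∧ Ev n k q.1 q.2 H)).card : ℝ) := by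
      simp only [X, sq, Finset.sum_mul_sum]
      rw [Finset.sum_comm]
      apply Finset.sum_congr rfl
      intro p _
      rw [Finset.sum_comm]
      apply Finset.sum_congr rfl
      intro q _
      rw [Finset.card_filter]
      push_cast
      apply Finset.sum_congr rfl
      intro H _
      by_cases h1 : Ev n k p.1 p.2 H <;> by_cases h2 : Ev n k q.1 q.2 H <;> simp [h1, h2]
    rw [e1]
    have e2 : ∀ p ∈ Ps, ∑ q ∈ Ps,
        ((Ω.filter (fun H => Ev n k p.1 p.2 H ∧ Ev n k q.1 q.2 H)).card : ℝ) ≤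
        (2 * W + 4 * n * w g ^ 2 + T * w h ^ 2) * 2 ^ (UU n k).card := by
      intro p hp
      rw [hPs, mem_offDiag] at hp
      have e3 : ∀ q ∈ Ps, ((Ω.filter (fun H => Ev n k p.1 p.2 H ∧ Ev n k q.1 q.2 H)).card : ℝ) ≤
          ((if q = p then W else 0) + (if q = p.swap then W else 0)
        + ((if q.1 = p.1 then 1 else 0) + (if q.1 = p.2 then 1 else 0) + (if q.2 = p.1 then 1 else 0)
          + (if q.2 = p.2 then 1 else 0)) * w g ^ 2 + w h ^ 2) * 2 ^ (UU n k).card := by
        intro q hq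
        rw [hPs, mem_offDiag] at hq
        exact pair_bound n k hk g h hg hh p q hp.2.2 hq.2.2
      refine (Finset.sum_le_sum e3).trans ?_
      rw [← Finset.sum_mul]
      apply mul_le_mul_of_nonneg_right _ (by positivity)
      rw [Finset.sum_add_distrib, Finset.sum_add_distrib, Finset.sum_add_distrib, ← Finset.sum_mul,
        Finset.sum_const, nsmul_eq_mul, hPsc]
      have hWp := w_pos ((n - 2).choose (k - 1))
      rw [← hW] at hWp
      have f1 : ∀ r : Fin n × Fin n, ∑ q ∈ Ps, (if q = r then W else 0) ≤ W := by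
        intro r
        rw [Finset.sum_ite_eq']
        split_ifs <;> linarith
      have f2 : ∀ x : Fin n, ∑ q ∈ Ps, (if q.1 = x then (1 : ℝ) else 0) ≤ n := by
        intro x
        calc _ ≤ ∑ q : Fin n × Fin n, (if q.1 = x then (1 : ℝ) else 0) := by
              apply Finset.sum_le_sum_of_subset_of_nonneg (subset_univ _)
              intro q _ _
              split_ifs <;> norm_num
          _ = n := by
              rw [Fintype.sum_prod_type]
              have hx : ∀ a : Fin n, ∑ b : Fin n, (if (a, b).1 = x then (1 : ℝ) else 0) =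
                  if a = x then (n : ℝ) else 0 := by
                intro a
                by_cases hax : a = x <;> simp [hax]
              rw [Finset.sum_congr rfl (fun a _ => hx a)]
              simp
      have f3 : ∀ x : Fin n, ∑ q ∈ Ps, (if q.2 = x then (1 : ℝ) else 0) ≤ n := by
        intro x
        calc _ ≤ ∑ q : Fin n × Fin n, (if q.2 = x then (1 : ℝ) else 0) := by
              apply Finset.sum_le_sum_of_subset_of_nonneg (subset_univ _)
              intro q _ _
              split_ifs <;> norm_num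
          _ = n := by
              rw [Fintype.sum_prod_type]
              simp
      rw [Finset.sum_add_distrib, Finset.sum_add_distrib, Finset.sum_add_distrib]
      have hw2 : 0 ≤ w g ^ 2 := by positivity
      have f4 := mul_le_mul_of_nonneg_right (add_le_add (add_le_add (add_le_add (f2 p.1) (f2 p.2))
        (f3 p.1)) (f3 p.2)) hw2
      have f5 := f1 p
      have f6 := f1 p.swap
      linarith
    refine (Finset.sum_le_sum e2).trans (le_of_eq ?_)
    rw [Finset.sum_const, nsmul_eq_mul, hPsc]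
    ring
  have hΩc : (Ω.card : ℝ) = 2 ^ (UU n k).card := by
    rw [hΩ, card_powerset]; push_cast; rfl
  have hexp : ∑ H ∈ Ω, (X n k H - T * W) ^ 2 =
      ∑ H ∈ Ω, X n k H ^ 2 - 2 * (T * W) * ∑ H ∈ Ω, X n k H + Ω.card * (T * W) ^ 2 := by
    rw [Finset.mul_sum, ← Finset.sum_sub_distrib, ← nsmul_eq_mul, ← Finset.sum_const,
      ← Finset.sum_add_distrib]
    apply Finset.sum_congr rfl
    intro H _
    ring
  rw [hexp, hS1, hΩc]
  nlinarith [hS2]

/-- variance in terms of the mean -/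
theorem var_bound' (n k : ℕ) (hn : 100 ≤ n) (hk : k = 2 ∨ k = 3 ∨ k = 4) :
    ∑ H ∈ (UU n k).powerset, (X n k H - (n * (n - 1) : ℝ) * w ((n - 2).choose (k - 1))) ^ 2 ≤
      2 ^ (UU n k).card * ((Real.sqrt (25 / n) + 25 / n) *
        ((n * (n - 1) : ℝ) * w ((n - 2).choose (k - 1))) ^ 2) := by
  set M := (n - 2).choose (k - 1) with hM
  set s := (n - 2).choose (k - 2) with hs
  have hk2 : 2 ≤ k := by rcases hk with h | h | h <;> omega
  have hrel : s * (n + 8) ≤ 4 * M := by
    have h1 := Nat.choose_succ_right_eq (n - 2) (k - 2)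
    rw [show k - 2 + 1 = k - 1 by omega, ← hM, ← hs] at h1
    rcases hk with h | h | h
    · subst h
      have e1 : n - 2 - (2 - 2) = n - 2 := by omega
      rw [e1] at h1
      obtain ⟨m, hm⟩ := Nat.exists_eq_add_of_le hn
      have e2 : n - 2 = 98 + m := by omega
      rw [e2] at h1
      rw [hm]
      nlinarith
    · subst h
      have e1 : n - 2 - (3 - 2) = n - 3 := by omega
      rw [e1] at h1
      obtain ⟨m, hm⟩ := Nat.exists_eq_add_of_le hn
      have e2 : n - 3 = 97 + m := by omega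
      rw [e2] at h1
      rw [hm]
      nlinarith
    · subst h
      have e1 : n - 2 - (4 - 2) = n - 4 := by omega
      rw [e1] at h1
      obtain ⟨m, hm⟩ := Nat.exists_eq_add_of_le hn
      have e2 : n - 4 = 96 + m := by omega
      rw [e2] at h1
      rw [hm]
      nlinarith
  have hs1 : 1 ≤ s := Nat.choose_pos (by rcases hk with h | h | h <;> omega)
  have hM27 : 27 * s ≤ M := by nlinarith
  have hMn : (M : ℝ) ≤ (n : ℝ) ^ 3 := by
    have h1 : M ≤ n ^ 3 := by
      calc M ≤ (n - 2) ^ (k - 1) := Nat.choose_le_pow _ _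
        _ ≤ n ^ (k - 1) := Nat.pow_le_pow_left (Nat.sub_le _ _) _
        _ ≤ n ^ 3 := Nat.pow_le_pow_right (by omega) (by rcases hk with h | h | h <;> omega)
    exact_mod_cast h1
  set g := (M - 2 * s) / 2 with hg
  set h := M - 2 * s with hh
  have hsm := var_bound n k (by omega) hk2 g h (by rw [← hM, ← hs, hg]; omega) hh
  rw [← hM] at hsm
  refine hsm.trans ?_
  set W := w M with hW
  set T : ℝ := (n * (n - 1) : ℝ) with hT
  have hWp : 0 < W := w_pos M
  have hnR : (100 : ℝ) ≤ n := by exact_mod_cast hn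
  have hTp : 0 < T := by rw [hT]; nlinarith
  have h2N : (0 : ℝ) < 2 ^ (UU n k).card := by positivity
  have hG : w g ^ 2 ≤ 4 * W ^ 2 := by
    have h1 := w_mono g M (by rw [hg]; omega)
    have h2 : (M : ℝ) ≤ 4 * g := by
      have : M ≤ 4 * g := by rw [hg]; omega
      exact_mod_cast this
    have h3 : (0 : ℝ) < g := by
      have : 0 < g := by rw [hg]; omega
      exact_mod_cast this
    have h4 : (g : ℝ) * w g ^ 2 ≤ g * (4 * W ^ 2) := by
      calc _ ≤ (M : ℝ) * W ^ 2 := h1
        _ ≤ (4 * g) * W ^ 2 := mul_le_mul_of_nonneg_right h2 (by positivity)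
        _ = _ := by ring
    exact le_of_mul_le_mul_left h4 h3
  have hH : w h ^ 2 ≤ (1 + 8 / n) * W ^ 2 := by
    have h1 := w_mono h M (by rw [hh]; omega)
    have h3 : (0 : ℝ) < h := by
      have : 0 < h := by rw [hh]; omega
      exact_mod_cast this
    have h2 : (M : ℝ) ≤ h * (1 + 8 / n) := by
      have e1 : (h : ℝ) = M - 2 * s := by
        rw [hh, Nat.cast_sub (by omega)]; push_cast; ring
      have e2 : (s : ℝ) * (n + 8) ≤ 4 * M := by exact_mod_cast hrel
      rw [e1]
      have e3 : ((M : ℝ) - 2 * s) * (1 + 8 / n) = M + (2 * (4 * M - s * (n + 8))) / n := by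
        field_simp
        ring
      rw [e3]
      have : 0 ≤ (2 * (4 * (M : ℝ) - s * (n + 8))) / n := by
        apply div_nonneg _ (by linarith)
        linarith
      linarith
    have h4 : (h : ℝ) * w h ^ 2 ≤ h * ((1 + 8 / n) * W ^ 2) := by
      calc _ ≤ (M : ℝ) * W ^ 2 := h1
        _ ≤ (h * (1 + 8 / n)) * W ^ 2 := mul_le_mul_of_nonneg_right h2 (by positivity)
        _ = _ := by ring
    exact le_of_mul_le_mul_left h4 h3
  refine mul_le_mul_of_nonneg_left ?_ h2N.le
  have hB : T * (2 * W + 4 * n * w g ^ 2 + T * w h ^ 2) - (T * W) ^ 2 ≤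
      (2 / (T * W) + 16 * n / T + 8 / n) * (T * W) ^ 2 := by
    have e2 : (2 / (T * W) + 16 * n / T + 8 / n) * (T * W) ^ 2 =
        2 * T * W + 16 * n * T * W ^ 2 + 8 / n * (T * W) ^ 2 := by
      field_simp
    rw [e2]
    have e3 : T * (4 * n * w g ^ 2) ≤ 16 * n * T * W ^ 2 := by
      have : T * (4 * n) * w g ^ 2 ≤ T * (4 * n) * (4 * W ^ 2) :=
        mul_le_mul_of_nonneg_left hG (by positivity)
      linarith
    have e4 : T * (T * w h ^ 2) ≤ (1 + 8 / n) * (T * W) ^ 2 := by
      have : T ^ 2 * w h ^ 2 ≤ T ^ 2 * ((1 + 8 / n) * W ^ 2) :=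
        mul_le_mul_of_nonneg_left hH (by positivity)
      calc _ = T ^ 2 * w h ^ 2 := by ring
        _ ≤ _ := this
        _ = _ := by ring
    have e5 : T * (2 * W + 4 * n * w g ^ 2 + T * w h ^ 2) =
        2 * T * W + T * (4 * n * w g ^ 2) + T * (T * w h ^ 2) := by ring
    rw [e5]
    have e6 : (1 + 8 / (n : ℝ)) * (T * W) ^ 2 = (T * W) ^ 2 + 8 / n * (T * W) ^ 2 := by ring
    linarith
  have h1 : 2 / (T * W) ≤ Real.sqrt (25 / n) := by
    rw [Real.le_sqrt' (by positivity), div_pow, div_le_div_iff₀ (by positivity) (by linarith)]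
    have e1 := w_low M (by omega)
    have e2 : 1 / 4 ≤ (n : ℝ) ^ 3 * W ^ 2 :=
      e1.trans (mul_le_mul_of_nonneg_right hMn (by positivity))
    have e3 : (n : ℝ) * (T * W) ^ 2 = (n - 1) ^ 2 * ((n : ℝ) ^ 3 * W ^ 2) := by rw [hT]; ring
    have e4 : ((n : ℝ) - 1) ^ 2 * (1 / 4) ≤ (n : ℝ) * (T * W) ^ 2 := by
      rw [e3]
      exact mul_le_mul_of_nonneg_left e2 (by positivity)
    have e5 : (n : ℝ) * (2 ^ 2 * n) ≤ n * (25 * (T * W) ^ 2) := by nlinarith
    exact le_of_mul_le_mul_left e5 (by linarith)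
  have h2 : 16 * n / T ≤ 17 / n := by
    rw [hT, div_le_div_iff₀ (by nlinarith) (by linarith)]
    nlinarith
  refine hB.trans (mul_le_mul_of_nonneg_right ?_ (by positivity))
  calc 2 / (T * W) + 16 * n / T + 8 / n ≤ Real.sqrt (25 / n) + 17 / n + 8 / n := by linarith
    _ = Real.sqrt (25 / n) + 25 / n := by ring

theorem mean_pos (n k : ℕ) (hn : 100 ≤ n) : 0 < mean n k := by
  have h := mean_eq n k
  have hw := w_pos ((n - 2).choose (k - 1))
  have hnR : (100 : ℝ) ≤ n := by exact_mod_cast hn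
  have : 0 < (n * (n - 1) : ℝ) * w ((n - 2).choose (k - 1)) := by
    apply mul_pos _ hw
    nlinarith
  linarith

theorem card_hyps (n r : ℕ) : ((hyps n r).card : ℝ) = 2 ^ (UU n r).card := by
  rw [hyps, card_powerset]
  push_cast
  rfl

theorem exact_mean (n r : ℕ) (hn : 1 ≤ n) (hr : 2 ≤ r) :
    (∑ H ∈ hyps n r, (eqPairs H : ℝ)) / ((hyps n r).card : ℝ) = mean n r := by
  have h := sum_X n r hn hr
  have e : ∑ H ∈ (UU n r).powerset, X n r H = 2 * ∑ H ∈ hyps n r, (eqPairs H : ℝ) := by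
    rw [Finset.mul_sum]
    exact Finset.sum_congr rfl fun H hH => X_eq n r H (mem_powerset.mp hH)
  rw [e] at h
  rw [card_hyps, div_eq_iff (by positivity)]
  have h2 := mean_eq n r
  rw [← h2] at h
  linarith

open Classical in
theorem chebyshev (n k : ℕ) (hn : 100 ≤ n) (hk : k = 2 ∨ k = 3 ∨ k = 4) (δ : ℝ) (hδ : 0 < δ) :
    Pr n k (fun H => δ * mean n k ≤ |(eqPairs H : ℝ) - mean n k|) ≤
      (Real.sqrt (25 / n) + 25 / n) / δ ^ 2 := by
  have hv := var_bound' n k hn hk
  have hmp := mean_pos n k hn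
  rw [← mean_eq] at hv
  unfold Pr
  rw [card_hyps, div_le_div_iff₀ (by positivity) (by positivity)]
  set Bad := (hyps n k).filter (fun H => δ * mean n k ≤ |(eqPairs H : ℝ) - mean n k|) with hBad
  have h1 : (Bad.card : ℝ) * (δ * (2 * mean n k)) ^ 2 ≤
      ∑ H ∈ (UU n k).powerset, (X n k H - 2 * mean n k) ^ 2 := by
    calc (Bad.card : ℝ) * (δ * (2 * mean n k)) ^ 2 = ∑ H ∈ Bad, (δ * (2 * mean n k)) ^ 2 := by
          rw [Finset.sum_const, nsmul_eq_mul]
      _ ≤ ∑ H ∈ Bad, (X n k H - 2 * mean n k) ^ 2 := by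
          refine Finset.sum_le_sum fun H hH => ?_
          rw [hBad, mem_filter] at hH
          have hHU : H ⊆ UU n k := mem_powerset.mp hH.1
          rw [X_eq n k H hHU]
          have e1 : (2 * (eqPairs H : ℝ) - 2 * mean n k) ^ 2 =
              (2 * |(eqPairs H : ℝ) - mean n k|) ^ 2 := by
            rw [mul_pow, sq_abs]; ring
          rw [e1]
          apply pow_le_pow_left₀ (by positivity)
          linarith [hH.2]
      _ ≤ _ := by
          apply Finset.sum_le_sum_of_subset_of_nonneg (filter_subset _ _)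
          intro H _ _
          positivity
  have h2 := h1.trans hv
  have hm2 : 0 < (2 * mean n k) ^ 2 := by positivity
  apply le_of_mul_le_mul_right _ hm2
  calc (Bad.card : ℝ) * δ ^ 2 * (2 * mean n k) ^ 2 = (Bad.card : ℝ) * (δ * (2 * mean n k)) ^ 2 := by
        ring
    _ ≤ _ := h2
    _ = _ := by ring

/-! ### asymptotics of the mean -/

theorem w_wallis (h : ℕ) : Real.Wallis.W h * (w h ^ 2 * (2 * h + 1)) = 1 := by
  induction h with
  | zero => simp [Real.Wallis.W, w]
  | succ h ih =>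
    rw [Real.Wallis.W_succ]
    have h1 := w_succ h
    have h2 : w (h + 1) = w h * (2 * h + 1) / (2 * h + 2) := by
      have : (2 * (h : ℝ) + 2) ≠ 0 := by positivity
      field_simp
      linarith
    rw [h2]
    push_cast
    have e : Real.Wallis.W h * ((2 * (h : ℝ) + 2) / (2 * h + 1) * ((2 * h + 2) / (2 * h + 3))) *
        ((w h * (2 * h + 1) / (2 * h + 2)) ^ 2 * (2 * (h + 1) + 1)) =
        Real.Wallis.W h * (w h ^ 2 * (2 * h + 1)) := by
      field_simp
      ring
    rw [e, ih]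

theorem w_tendsto : Tendsto (fun h : ℕ => w h ^ 2 * h) atTop (𝓝 (1 / Real.pi)) := by
  have h1 := Real.Wallis.tendsto_W_nhds_pi_div_two
  have h2 : Tendsto (fun h : ℕ => w h ^ 2 * (2 * (h : ℝ) + 1)) atTop (𝓝 ((Real.pi / 2)⁻¹)) := by
    have := h1.inv₀ (by positivity)
    refine this.congr fun h => ?_
    have hw := w_wallis h
    exact (eq_inv_of_mul_eq_one_right hw).symm
  have h3 : Tendsto (fun h : ℕ => (h : ℝ) / (2 * (h : ℝ) + 1)) atTop (𝓝 (1 / 2)) := by
    have e : Tendsto (fun h : ℕ => 1 / (2 + 1 / (h : ℝ))) atTop (𝓝 (1 / (2 + 0))) := by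
      apply Tendsto.div tendsto_const_nhds _ (by norm_num)
      exact tendsto_const_nhds.add tendsto_one_div_atTop_nhds_zero_nat
    rw [add_zero] at e
    refine e.congr' ?_
    filter_upwards [eventually_gt_atTop 0] with h hh
    have : (0 : ℝ) < h := by exact_mod_cast hh
    field_simp
  have h4 := h2.mul h3
  have e : (Real.pi / 2)⁻¹ * (1 / 2) = 1 / Real.pi := by
    field_simp
  rw [e] at h4
  refine h4.congr fun h => ?_
  field_simp

theorem choose_tendsto (j : ℕ) :
    Tendsto (fun n : ℕ => ((n - 2).choose j : ℝ) / (n : ℝ) ^ j) atTop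
      (𝓝 (1 / (j.factorial : ℝ))) := by
  induction j with
  | zero => simp
  | succ j ih =>
    have h1 : Tendsto (fun n : ℕ => (1 - (2 + j : ℝ) / (n : ℝ)) / (j + 1)) atTop
        (𝓝 ((1 - 0) / (j + 1))) := by
      apply Tendsto.div_const
      apply Tendsto.const_sub
      exact tendsto_const_div_atTop_nhds_zero_nat _
    have h2 := ih.mul h1
    have e : (1 / (j.factorial : ℝ)) * ((1 - 0) / (j + 1)) = 1 / ((j + 1).factorial : ℝ) := by
      rw [Nat.factorial_succ]
      push_cast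
      field_simp
      ring
    rw [e] at h2
    refine h2.congr' ?_
    filter_upwards [eventually_ge_atTop (j + 3)] with n hn
    have h3 := Nat.choose_succ_right_eq (n - 2) j
    have h4 : (((n - 2).choose (j + 1) : ℝ)) * (j + 1) = ((n - 2).choose j : ℝ) * (n - (2 + j)) := by
      have : ((n - 2 - j : ℕ) : ℝ) = (n : ℝ) - (2 + j) := by
        rw [Nat.sub_sub, Nat.cast_sub (by omega)]
        push_cast
        ring
      rw [← this]
      exact_mod_cast h3
    have hn0 : (0 : ℝ) < n := by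
      have : 0 < n := by omega
      exact_mod_cast this
    rw [pow_succ]
    have hj : (0 : ℝ) < (j : ℝ) + 1 := by positivity
    field_simp
    linarith

theorem mean_tendsto (k : ℕ) (hk : k = 2 ∨ k = 3 ∨ k = 4) :
    Tendsto (fun n : ℕ => mean n k / (n : ℝ) ^ ((5 - k : ℝ) / 2)) atTop
      (𝓝 (√(((k - 1).factorial : ℝ) / (4 * Real.pi)))) := by
  have hM : Tendsto (fun n : ℕ => (n - 2).choose (k - 1)) atTop atTop := by
    have hc := choose_tendsto (k - 1)
    have h1 : Tendsto (fun n : ℕ => ((n - 2).choose (k - 1) : ℝ)) atTop atTop := by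
      have h2 : Tendsto (fun n : ℕ => (n : ℝ) ^ (k - 1)) atTop atTop :=
        (tendsto_pow_atTop (by rcases hk with h | h | h <;> omega)).comp
          tendsto_natCast_atTop_atTop
      have h3 := Tendsto.pos_mul_atTop (by positivity) hc h2
      refine h3.congr' ?_
      filter_upwards [eventually_gt_atTop 0] with n hn
      have : (0 : ℝ) < n := by exact_mod_cast hn
      field_simp
    exact tendsto_natCast_atTop_iff.mp h1
  have h1 := w_tendsto.comp hM
  have h2 := choose_tendsto (k - 1)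
  have h3 : Tendsto (fun n : ℕ => (1 - 1 / (n : ℝ)) ^ 2) atTop (𝓝 ((1 - 0) ^ 2)) :=
    (tendsto_one_div_atTop_nhds_zero_nat.const_sub 1).pow 2
  have h4 := (((h3.mul h1).div h2 (by positivity)).div_const 4).sqrt
  have e : (1 - 0) ^ 2 * (1 / Real.pi) / (1 / ((k - 1).factorial : ℝ)) / 4 =
      ((k - 1).factorial : ℝ) / (4 * Real.pi) := by
    have := Real.pi_pos
    field_simp
    ring
  rw [e] at h4
  refine h4.congr' ?_
  filter_upwards [eventually_ge_atTop 100] with n hn
  have hnR : (100 : ℝ) ≤ n := by exact_mod_cast hn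
  have hn0 : (0 : ℝ) < n := by linarith
  have hmp := mean_pos n k hn
  have hMp : (0 : ℝ) < ((n - 2).choose (k - 1) : ℝ) := by
    have : 0 < (n - 2).choose (k - 1) := Nat.choose_pos (by rcases hk with h | h | h <;> omega)
    exact_mod_cast this
  simp only [Pi.div_apply, Function.comp]
  rw [Real.sqrt_eq_iff_mul_self_eq (by positivity) (by positivity)]
  have hpw : ((n : ℝ) ^ ((5 - k : ℝ) / 2)) ^ 2 * (n : ℝ) ^ (k - 1) = (n : ℝ) ^ 4 := by
    rw [← Real.rpow_natCast ((n : ℝ) ^ ((5 - k : ℝ) / 2)) 2, ← Real.rpow_mul hn0.le,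
      ← Real.rpow_natCast (n : ℝ) (k - 1), ← Real.rpow_add hn0, ← Real.rpow_natCast (n : ℝ) 4]
    congr 1
    rcases hk with h | h | h <;> subst h <;> norm_num
  have hpp : (0 : ℝ) < (n : ℝ) ^ ((5 - k : ℝ) / 2) := Real.rpow_pos_of_pos hn0 _
  have hm : mean n k = (n * (n - 1) : ℝ) * w ((n - 2).choose (k - 1)) / 2 := by
    have := mean_eq n k
    linarith
  rw [hm]
  set M := (n - 2).choose (k - 1) with hMdef
  set q := (n : ℝ) ^ ((5 - k : ℝ) / 2) with hq
  have hpk : (0 : ℝ) < (n : ℝ) ^ (k - 1) := by positivity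
  have e1 : (n * (n - 1) : ℝ) * w M / 2 / q * ((n * (n - 1) : ℝ) * w M / 2 / q) =
      ((n : ℝ) * (n - 1)) ^ 2 * w M ^ 2 / 4 / q ^ 2 := by
    field_simp
    ring
  have e2 : (1 - 1 / (n : ℝ)) ^ 2 * (w M ^ 2 * (M : ℝ)) / ((M : ℝ) / (n : ℝ) ^ (k - 1)) / 4 =
      (1 - 1 / (n : ℝ)) ^ 2 * w M ^ 2 * (n : ℝ) ^ (k - 1) / 4 := by
    field_simp
  rw [e1, e2, eq_div_iff (by positivity)]
  have e3 : (1 - 1 / (n : ℝ)) ^ 2 * w M ^ 2 * (n : ℝ) ^ (k - 1) / 4 * q ^ 2 =
      (1 - 1 / (n : ℝ)) ^ 2 * w M ^ 2 / 4 * (q ^ 2 * (n : ℝ) ^ (k - 1)) := by ring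
  rw [e3, hpw]
  field_simp

open Classical in
theorem Pr_compl (n k : ℕ) (P : Finset (Finset (Fin n)) → Prop) : Pr n k P = 1 - Pr n k (fun H => ¬ P H) := by
  unfold Pr
  have h : ((hyps n k).filter P).card + ((hyps n k).filter (fun H => ¬ P H)).card =
      (hyps n k).card := by
    convert Finset.card_filter_add_card_filter_not (s := hyps n k) P
  have h2 : (((hyps n k).filter P).card : ℝ) + (((hyps n k).filter (fun H => ¬ P H)).card : ℝ) =
      ((hyps n k).card : ℝ) := by exact_mod_cast h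
  have h3 : (0 : ℝ) < ((hyps n k).card : ℝ) := by rw [card_hyps]; positivity
  rw [eq_sub_iff_add_eq, ← add_div, div_eq_one_iff_eq h3.ne']
  convert h2

open Classical in
theorem Pr_mono (n k : ℕ) (P Q : Finset (Finset (Fin n)) → Prop) (h : ∀ H, P H → Q H) :
    Pr n k P ≤ Pr n k Q := by
  unfold Pr
  apply div_le_div_of_nonneg_right _ (by positivity)
  exact_mod_cast card_le_card (Finset.monotone_filter_right _ (fun H _ => h H))

open Classical in
theorem Pr_le_one (n k : ℕ) (P : Finset (Finset (Fin n)) → Prop) : Pr n k P ≤ 1 := by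
  unfold Pr
  apply div_le_one_of_le₀ _ (by positivity)
  exact_mod_cast card_le_card (filter_subset _ _)

/-- **Law of large numbers.** -/
theorem result (r : ℕ) (hr : r = 2 ∨ r = 3 ∨ r = 4) :
    (∀ n : ℕ, 1 ≤ n →
      (∑ H ∈ hyps n r, (eqPairs H : ℝ)) / ((hyps n r).card : ℝ) = mean n r) ∧
    Tendsto (fun n : ℕ => mean n r / (n : ℝ) ^ ((5 - r : ℝ) / 2)) atTop
      (𝓝 (√(((r - 1).factorial : ℝ) / (4 * Real.pi)))) ∧
    (∀ n : ℕ, 100 ≤ n → ∀ δ : ℝ, 0 < δ →
      Pr n r (fun H => δ * mean n r ≤ |(eqPairs H : ℝ) - mean n r|) ≤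
        (√(25 / n) + 25 / n) / δ ^ 2) ∧
    (∀ ε : ℝ, 0 < ε → Tendsto (fun n : ℕ => Pr n r (fun H =>
      |(eqPairs H : ℝ) / (n : ℝ) ^ ((5 - r : ℝ) / 2) - √(((r - 1).factorial : ℝ) / (4 * Real.pi))|
        < ε)) atTop (𝓝 1)) := by
  refine ⟨fun n hn => exact_mean n r hn (by rcases hr with h | h | h <;> omega),
    mean_tendsto r hr, fun n hn δ hδ => chebyshev n r hn hr δ hδ, fun ε hε => ?_⟩
  set c := √(((r - 1).factorial : ℝ) / (4 * Real.pi)) with hc
  have hc0 : 0 ≤ c := Real.sqrt_nonneg _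
  have hm := mean_tendsto r hr
  rw [← hc] at hm
  set δ : ℝ := ε / (2 * (c + 1)) with hδ
  have hδp : 0 < δ := by positivity
  have hlim : Tendsto (fun n : ℕ => 1 - (√(25 / (n : ℝ)) + 25 / (n : ℝ)) / δ ^ 2) atTop (𝓝 1) := by
    have h1 : Tendsto (fun n : ℕ => (25 : ℝ) / (n : ℝ)) atTop (𝓝 0) :=
      tendsto_const_div_atTop_nhds_zero_nat 25
    have h2 : Tendsto (fun n : ℕ => √(25 / (n : ℝ))) atTop (𝓝 0) := by
      have := (Real.continuous_sqrt.tendsto 0).comp h1
      rw [Real.sqrt_zero] at this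
      exact this
    have h3 := ((h2.add h1).div_const (δ ^ 2)).const_sub 1
    simpa using h3
  have hev : ∀ᶠ n : ℕ in atTop, |mean n r / (n : ℝ) ^ ((5 - r : ℝ) / 2) - c| < min 1 (ε / 2) :=
    Metric.tendsto_nhds.mp hm _ (by positivity)
  refine tendsto_of_tendsto_of_tendsto_of_le_of_le' hlim tendsto_const_nhds ?_
    (Eventually.of_forall fun n => Pr_le_one _ _ _)
  filter_upwards [hev, eventually_ge_atTop 100] with n hn1 hn
  have hb := chebyshev n r hn hr δ hδp
  rw [Pr_compl]
  refine sub_le_sub_left (le_trans (Pr_mono n r _ _ fun H hH => ?_) hb) 1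
  rw [not_lt] at hH
  by_contra hcon
  rw [not_le] at hcon
  have hnR : (100 : ℝ) ≤ n := by exact_mod_cast hn
  have hq : (0 : ℝ) < (n : ℝ) ^ ((5 - r : ℝ) / 2) := Real.rpow_pos_of_pos (by linarith) _
  set q := (n : ℝ) ^ ((5 - r : ℝ) / 2) with hqd
  have h1 : |(eqPairs H : ℝ) / q - mean n r / q| < δ * (mean n r / q) := by
    rw [← sub_div, abs_div, abs_of_pos hq, ← mul_div_assoc]
    exact div_lt_div_of_pos_right hcon hq
  have h2 : mean n r / q < c + 1 := by
    have := (abs_lt.mp (hn1.trans_le (min_le_left _ _))).2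
    linarith
  have h3 : δ * (mean n r / q) ≤ ε / 2 := by
    calc δ * (mean n r / q) ≤ δ * (c + 1) := mul_le_mul_of_nonneg_left h2.le hδp.le
      _ = ε / 2 := by rw [hδ]; field_simp
  have h4 : |mean n r / q - c| < ε / 2 := hn1.trans_le (min_le_right _ _)
  have h5 : |(eqPairs H : ℝ) / q - c| < ε := by
    calc |(eqPairs H : ℝ) / q - c| = |((eqPairs H : ℝ) / q - mean n r / q) + (mean n r / q - c)| := by
          congr 1; ring
      _ ≤ |(eqPairs H : ℝ) / q - mean n r / q| + |mean n r / q - c| := abs_add_le _ _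
      _ < ε := by linarith
  linarith

end Pool.Agent.Results.MP_bd7745_co.LawOfLargeNumbers
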